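import Pool.Agent.helper25.TW.Spec

/-! Row `two:CV` (MP_f42afa_pr). -/

set_option autoImplicit false

namespace TP.TW

open DP MeasureTheory Finset

private theorem CV_dI_le (u v : V) : dI u v ≤ sd u v := by
  unfold dI sd I
  omega

private theorem CV_sd_le (u v : V) : sd u v ≤ 3 * dI u v + 1 := by
  unfold dI sd I
  omega

private theorem CV_br (w : V) : (br w).2 = w.2 ∧ I (br w) = I w ∧ (br w).1 ≤ w.1 ∧ w.1 ≤ (br w).1 + 1 := by
  unfold br I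
  split_ifs with h
  · exact ⟨rfl, rfl, le_refl _, by omega⟩
  · refine ⟨rfl, ?_, ?_, ?_⟩
    · show (w.1 - 1 - w.2) / 2 = (w.1 - w.2) / 2
      omega
    · show w.1 - 1 ≤ w.1
      omega
    · show w.1 ≤ w.1 - 1 + 1
      omega

private theorem CV_phi (n : ℕ) (v : V) (h : v ∈ (univ : Finset (Fin n × Fin n)).image phi) :
    0 ≤ I v ∧ I v < n ∧ 0 ≤ v.2 ∧ v.2 < n := by
  obtain ⟨p, -, rfl⟩ := mem_image.mp h
  have h1 := p.1.isLt
  have h2 := p.2.isLt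
  unfold I phi
  simp only
  omega

private theorem CV_div (t a : ℤ) (ht : 0 < t) (h1 : -(384 * t) ≤ a) (h2 : a ≤ 384 * t) :
    a / t ∈ Icc (-400 : ℤ) 400 ∧ 0 ≤ a - t * (a / t) ∧ a - t * (a / t) < t := by
  have e := Int.mul_ediv_add_emod a t
  have e1 := Int.emod_nonneg a ht.ne'
  have e2 := Int.emod_lt_of_pos a ht
  refine ⟨?_, by omega, by omega⟩
  rw [mem_Icc]
  constructor
  · by_contra hc
    have : a / t + 1 ≤ -400 := by omega
    nlinarith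
  · by_contra hc
    have : 401 ≤ a / t := by omega
    nlinarith

private theorem CV_x (v₀ w z : V) (t : ℕ) (ht : 1 ≤ t) (h1 : sd v₀ w ≤ 384 * t) (h2 : 8 * t ≤ sd w z + 1) :
    ∃ p ∈ Icc (-400 : ℤ) 400, ∃ q ∈ Icc (-400 : ℤ) 400,
      sd ((v₀.1 + t * p, v₀.2 + t * q) : V) w ≤ t ∧ 3 * t ≤ sd ((v₀.1 + t * p, v₀.2 + t * q) : V) z := by
  have ht' : (0 : ℤ) < t := by omega
  have a1 : -(384 * (t : ℤ)) ≤ w.1 - v₀.1 ∧ w.1 - v₀.1 ≤ 384 * (t : ℤ) ∧ -(384 * (t : ℤ)) ≤ w.2 - v₀.2 ∧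
      w.2 - v₀.2 ≤ 384 * (t : ℤ) := by
    unfold sd at h1
    omega
  obtain ⟨b1, b2, b3, b4⟩ := a1
  obtain ⟨c1, c2, c3⟩ := CV_div t (w.1 - v₀.1) ht' b1 b2
  obtain ⟨d1, d2, d3⟩ := CV_div t (w.2 - v₀.2) ht' b3 b4
  refine ⟨_, c1, _, d1, ?_⟩
  generalize (t : ℤ) * ((w.1 - v₀.1) / t) = A at *
  generalize (t : ℤ) * ((w.2 - v₀.2) / t) = B at *
  unfold sd at *
  simp only
  omega

theorem CV : CV_stmt := by
  intro n c S v₀ hn hS hv hB
  obtain ⟨k, w, z, -, h1, h2, hc⟩ := hB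
  have hw : br w ∈ S := by
    have : w ∈ {x | x ∈ til S ∧ c x = k} := hc.1
    exact this.1
  have hwn := CV_phi n (br w) (hS hw)
  have hvn := CV_phi n v₀ hv
  obtain ⟨e1, e2, e3, e4⟩ := CV_br w
  rw [e1, e2] at hwn
  have hρn : dI v₀ w < n := by
    unfold dI
    omega
  have hsd := CV_sd_le v₀ w
  by_cases h64 : dI v₀ w < 64
  · left
    refine ⟨br w, hw, ?_⟩
    have : sd v₀ (br w) ≤ sd v₀ w + 1 := by
      unfold sd
      omega
    omega
  · right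
    have hpos : dI v₀ w ≠ 0 := by omega
    have hl6 : 6 ≤ Nat.log 2 (dI v₀ w) := by
      refine Nat.le_log_of_pow_le (by norm_num) ?_
      norm_num
      omega
    obtain ⟨s, hs⟩ : ∃ s, Nat.log 2 (dI v₀ w) = s + 6 := ⟨Nat.log 2 (dI v₀ w) - 6, by omega⟩
    have hlo : 2 ^ (s + 6) ≤ dI v₀ w := by
      rw [← hs]
      exact Nat.pow_log_le_self 2 hpos
    have hhi : dI v₀ w < 2 ^ (s + 7) := by
      have := Nat.lt_pow_succ_log_self (b := 2) (by norm_num) (dI v₀ w)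
      rw [hs] at this
      exact this
    have hsn : s ≤ Nat.log 2 n := by
      have h3 : Nat.log 2 (dI v₀ w) ≤ Nat.log 2 n := Nat.log_mono_right (by omega)
      omega
    have hpow6 : 2 ^ (s + 6) = 64 * 2 ^ s := by ring
    have hpow7 : 2 ^ (s + 7) = 128 * 2 ^ s := by ring
    have ht1 : 1 ≤ 2 ^ s := Nat.one_le_two_pow
    have hdz := CV_dI_le w z
    obtain ⟨p, hp, q, hq, hx1, hx2⟩ := CV_x v₀ w z (2 ^ s) ht1 (by omega) (by omega)
    refine ⟨s, mem_range.mpr (by omega), k, p, hp, q, hq, w, z, ?_, ?_, hc⟩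
    · exact_mod_cast hx1
    · exact_mod_cast hx2

end TP.TW
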